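import Mathlib

set_option autoImplicit false

namespace Pool.Agent.Results.MP_522a36_co.Drop

open Set

/-- the trace family of `S` on `Y` -/
def trace {X : Type} (S : Set (Set X)) (Y : Set X) : Set (Set X) := (fun A => A ∩ Y) '' S

/-- `S` shatters `Y` -/
def Shatters {X : Type} (S : Set (Set X)) (Y : Set X) : Prop := ∀ Z ⊆ Y, Z ∈ trace S Y

/-- the sizes of the finite sets shattered by `S` -/
def sizes {X : Type} (S : Set (Set X)) : Set ℕ := {n | ∃ Y : Finset X, Y.card = n ∧ Shatters S Y}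

/-- the `k`-fold union family -/
def unions {X : Type} (S : Set (Set X)) (k : ℕ) : Set (Set X) :=
  {A | ∃ f : Fin k → Set X, (∀ i, f i ∈ S) ∧ A = ⋃ i, f i}

/-- shatter-isomorphism -/
def Iso {X : Type} (S : Set (Set X)) (Y Y' : Set X) : Prop :=
  ∃ f : X → X, BijOn f Y Y' ∧ (fun T => f '' T) '' trace S Y = trace S Y'

/-- the finite sets of largest size shattered by the `k`-fold union family -/
def top {X : Type} (S : Set (Set X)) (k : ℕ) : Set (Finset X) :=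
  {Y | Y.card = sSup (sizes (unions S k)) ∧ Shatters (unions S k) Y}

/-- the number of shatter-isomorphism classes in `top S k` -/
noncomputable def s {X : Type} (S : Set (Set X)) (k : ℕ) : ℕ :=
  ((fun Y : Finset X => {Y' ∈ top S k | Iso S Y Y'}) '' top S k).ncard

def F : List (Finset ℕ) := [∅, {0}, {1}, {2}, {3}, {0, 1}, {0, 2}]

def S : Set (Set ℕ) := {A | ∃ B ∈ F, A = (B : Set ℕ)}

def U : Finset ℕ := {0, 1, 2, 3}

def F2 : List (Finset ℕ) := F.flatMap fun a => F.map fun b => a ∪ b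

def F3 : List (Finset ℕ) := F.flatMap fun a => F2.map fun b => a ∪ b

def fam (L : List (Finset ℕ)) : Set (Set ℕ) := {A | ∃ B ∈ L, A = (B : Set ℕ)}

theorem u2 : unions S 2 = fam F2 := by
  ext A
  simp only [unions, fam, F2, mem_ofPred_eq, List.mem_flatMap, List.mem_map]
  constructor
  · rintro ⟨f, hf, rfl⟩
    obtain ⟨a, ha, e1⟩ := hf 0
    obtain ⟨b, hb, e2⟩ := hf 1
    refine ⟨_, ⟨a, ha, b, hb, rfl⟩, ?_⟩
    ext x
    simp [Fin.exists_fin_two, e1, e2]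
  · rintro ⟨_, ⟨a, ha, b, hb, rfl⟩, rfl⟩
    refine ⟨![a, b], fun i => ?_, ?_⟩
    · fin_cases i
      exacts [⟨a, ha, rfl⟩, ⟨b, hb, rfl⟩]
    · ext x
      simp [Fin.exists_fin_two]

theorem u3 : unions S 3 = fam F3 := by
  ext A
  simp only [unions, fam, F3, F2, mem_ofPred_eq, List.mem_flatMap, List.mem_map]
  constructor
  · rintro ⟨f, hf, rfl⟩
    obtain ⟨a, ha, e1⟩ := hf 0
    obtain ⟨b, hb, e2⟩ := hf 1
    obtain ⟨c, hc, e3⟩ := hf 2
    refine ⟨_, ⟨a, ha, _, ⟨b, hb, c, hc, rfl⟩, rfl⟩, ?_⟩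
    ext x
    simp [Fin.exists_fin_succ, e1, e2, e3]
  · rintro ⟨_, ⟨a, ha, _, ⟨b, hb, c, hc, rfl⟩, rfl⟩, rfl⟩
    refine ⟨![a, b, c], fun i => ?_, ?_⟩
    · fin_cases i
      exacts [⟨a, ha, rfl⟩, ⟨b, hb, rfl⟩, ⟨c, hc, rfl⟩]
    · ext x
      simp [Fin.exists_fin_succ]

theorem sh_iff (L : List (Finset ℕ)) (Y : Finset ℕ) :
    Shatters (fam L) Y ↔ ∀ Z ∈ Y.powerset, ∃ B ∈ L, B ∩ Y = Z := by
  constructor
  · intro h Z hZ
    obtain ⟨_, ⟨B, hB, rfl⟩, e⟩ := h Z (Finset.coe_subset.mpr (Finset.mem_powerset.mp hZ))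
    exact ⟨B, hB, Finset.coe_injective (by simpa using e)⟩
  · intro h Z hZ
    lift Z to Finset ℕ using Y.finite_toSet.subset hZ
    obtain ⟨B, hB, e⟩ := h Z (Finset.mem_powerset.mpr (Finset.coe_subset.mp hZ))
    exact ⟨B, ⟨B, hB, rfl⟩, by simp [← e]⟩

theorem sub {L : List (Finset ℕ)} (hL : ∀ B ∈ L, B ⊆ U) {Y : Finset ℕ} (h : Shatters (fam L) Y) :
    Y ⊆ U := by
  obtain ⟨B, hB, e⟩ := (sh_iff L Y).mp h Y (Finset.mem_powerset_self Y)
  exact e ▸ Finset.inter_subset_left.trans (hL B hB)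

theorem d3 : sSup (sizes (unions S 3)) = 4 := by
  rw [u3]
  refine IsGreatest.csSup_eq ⟨⟨U, rfl, (sh_iff _ _).mpr (by decide +kernel)⟩, ?_⟩
  rintro _ ⟨Y, rfl, h⟩
  exact Finset.card_le_card (sub (by decide +kernel) h)

theorem d2 : sSup (sizes (unions S 2)) = 3 := by
  rw [u2]
  refine IsGreatest.csSup_eq ⟨⟨{0, 1, 2}, rfl, (sh_iff _ _).mpr (by decide +kernel)⟩, ?_⟩
  rintro _ ⟨Y, rfl, h⟩
  have h1 := sub (by decide +kernel) h
  by_contra hn
  have h2 : U.card = 4 := rfl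
  obtain rfl := Finset.eq_of_subset_of_card_le h1 (by omega)
  exact absurd ((sh_iff _ _).mp h) (by decide +kernel)

theorem s3 : s S 3 = 1 := by
  have : top S 3 = {U} := by
    ext Y
    rw [top, d3, u3, mem_ofPred_eq, mem_singleton_iff]
    constructor
    · rintro ⟨h1, h2⟩
      exact Finset.eq_of_subset_of_card_le (sub (by decide +kernel) h2) (by rw [h1]; rfl)
    · rintro rfl
      exact ⟨rfl, (sh_iff _ _).mpr (by decide +kernel)⟩
  rw [s, this, image_singleton, ncard_singleton]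

theorem tr (Y : Finset ℕ) : trace S Y = (fun B : Finset ℕ => (B : Set ℕ)) '' ((F.map (· ∩ Y)).toFinset) := by
  ext A
  simp only [trace, S, mem_image, mem_ofPred_eq, List.coe_toFinset, List.mem_map]
  constructor
  · rintro ⟨_, ⟨B, hB, rfl⟩, rfl⟩
    exact ⟨_, ⟨B, hB, rfl⟩, by simp⟩
  · rintro ⟨_, ⟨B, hB, rfl⟩, rfl⟩
    exact ⟨_, ⟨B, hB, rfl⟩, by simp⟩

theorem s2 : 2 ≤ s S 2 := by
  have fin : (top S 2).Finite := (U.powerset.finite_toSet).subset fun Y hY =>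
    Finset.mem_powerset.mpr (sub (by decide +kernel) (u2 ▸ hY.2))
  have m1 : ({0, 1, 3} : Finset ℕ) ∈ top S 2 := ⟨d2.symm, u2 ▸ (sh_iff _ _).mpr (by decide +kernel)⟩
  have m2 : ({0, 1, 2} : Finset ℕ) ∈ top S 2 := ⟨d2.symm, u2 ▸ (sh_iff _ _).mpr (by decide +kernel)⟩
  refine (one_lt_ncard (fin.image _)).mpr ⟨_, mem_image_of_mem _ m1, _, mem_image_of_mem _ m2, fun e => ?_⟩
  have : ({0, 1, 2} : Finset ℕ) ∈ {Y' ∈ top S 2 | Iso S ({0, 1, 2} : Finset ℕ) Y'} :=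
    ⟨m2, id, bijOn_id _, by simp⟩
  rw [← e] at this
  obtain ⟨-, f, -, h⟩ := this
  have h1 := congrArg ncard h
  have h2 := ncard_image_le (f := fun T => f '' T) (s := trace S ({0, 1, 3} : Finset ℕ))
    (by rw [tr]; exact (Finset.finite_toSet _).image _)
  rw [h1, tr, tr, ncard_image_of_injective _ Finset.coe_injective,
    ncard_image_of_injective _ Finset.coe_injective, ncard_coe_finset, ncard_coe_finset] at h2
  exact absurd h2 (by decide +kernel)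

theorem result : ∃ S : Set (Set ℕ), BddAbove (sizes S) ∧ (∀ k, BddAbove (sizes (unions S k))) ∧
    ∃ k, 1 ≤ k ∧ 1 ≤ s S (k + 1) ∧ s S (k + 1) < s S k := by
  refine ⟨S, ⟨4, ?_⟩, fun k => ⟨4, ?_⟩, 2, by norm_num, s3.ge, by rw [s3]; exact s2⟩
  · rintro _ ⟨Y, rfl, h⟩
    exact Finset.card_le_card (sub (L := F) (by decide +kernel) h)
  · rintro _ ⟨Y, rfl, h⟩
    obtain ⟨_, ⟨f, hf, rfl⟩, e⟩ := h Y subset_rfl
    refine Finset.card_le_card (t := U) fun x hx => ?_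
    have : x ∈ (⋃ i, f i) ∩ (Y : Set ℕ) := (show _ ∩ _ = _ from e).symm ▸ Finset.mem_coe.mpr hx
    obtain ⟨i, hi⟩ := mem_iUnion.mp this.1
    obtain ⟨B, hB, e⟩ := hf i
    exact (by decide +kernel : ∀ B ∈ F, B ⊆ U) B hB (by rwa [e] at hi)

end Pool.Agent.Results.MP_522a36_co.Drop
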